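import Mathlib
import Pool.Agent.N251.GA.Inst
import Pool.Agent.N999.GA.Z
import Pool.Agent.N492.GA.Sym5
import Pool.Agent.N835.GA.SymFwd
import Pool.Agent.N564.GA.SymK
import Pool.Agent.N2.GA.RadKZ

/-!
# The abc conjecture over `ℤ[(1 + √5) / 2]` for conjugate triples

Restricting Q1 to rational integers gives a form of the classical abc conjecture. Here Q1 is restricted
to the triples `(a, - ā, ā - a)`, where `a` is coprime to its conjugate `ā` and `a ≠ ā`, and this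
restriction of Q1 is equivalent to the classical abc conjecture; one may moreover ask that a given
`N ≥ 1` divides `a - ā`. The proof uses the identity `s² - 5 t² = (u² - 20 z²)³ (u² - 45 z²)²` with
`s = u (u⁴ - 75 u² z² + 1500 z⁴)` and `t = - 50 z³ (u² - 36 z²)`.
-/

set_option autoImplicit false

namespace Pool.Agent.Results.MP_2a5a28_nt.ConjugateTriples

open NumberField IsDedekindDomain

variable {K : Type} [Field K] [NumberField K]

/-- the triples in lowest terms with `a + b + c = 0` and `abc ≠ 0` -/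
structure Triple (t : 𝓞 K × 𝓞 K × 𝓞 K) : Prop where
  sum : t.1 + t.2.1 + t.2.2 = 0
  ne : t.1 * t.2.1 * t.2.2 ≠ 0
  cop : Ideal.span {t.1, t.2.1, t.2.2} = (⊤ : Ideal (𝓞 K))

/-- the height `H(a, b, c)`: the product over the field embeddings `φ : K → ℂ` (two real ones when
`K = ℚ(√5)`) of `max (|φ a|, |φ b|, |φ c|)` -/
noncomputable def height (t : 𝓞 K × 𝓞 K × 𝓞 K) : ℝ :=
  ∏ φ : K →+* ℂ, max ‖φ t.1‖ (max ‖φ t.2.1‖ ‖φ t.2.2‖)

/-- the radical: the product of the norms of the prime ideals dividing `abc` -/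
noncomputable def rad (t : 𝓞 K × 𝓞 K × 𝓞 K) : ℝ :=
  ∏ᶠ (P : HeightOneSpectrum (𝓞 K)) (_ : t.1 * t.2.1 * t.2.2 ∈ P.asIdeal),
    (Ideal.absNorm P.asIdeal : ℝ)

/-- the inequality of Q1, for every `ε > 0`, for the triples `(a, - τ a, τ a - a)` with `N ∣ τ a - a`,
where `τ` is an endomorphism of `𝓞 K` (below the nontrivial automorphism of `ℤ[(1 + √5) / 2]`) -/
def AbcConj (τ : 𝓞 K →+* 𝓞 K) (N : ℕ) : Prop :=
  ∀ ε : ℝ, 0 < ε → ∃ C : ℝ, ∀ t : 𝓞 K × 𝓞 K × 𝓞 K, Triple t → t.2.1 = -τ t.1 →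
    (N : 𝓞 K) ∣ t.2.2 → height t ≤ C * rad t ^ (1 + ε)

/-- the classical abc conjecture: for every `ε > 0` there is `κ > 0` with
`κ max (|a|, |b|, |c|) ^ (1 - ε) ≤ ∏ p` (over the primes `p` dividing `a b c`) for all coprime rational
integers `a + b = c` with `a b c ≠ 0` -/
def AbcClassical : Prop := ∀ ε : ℝ, 0 < ε → ∃ κ : ℝ, 0 < κ ∧ ∀ a b c : ℤ, IsCoprime a b →
  a + b = c → a * b * c ≠ 0 →
    κ * (max (max |(a : ℝ)| |(b : ℝ)|) |(c : ℝ)|) ^ (1 - ε) ≤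
      ∏ p ∈ (a * b * c).natAbs.primeFactors, (p : ℝ)

open Pool.Agent.N251.GA in
theorem conj_iff (τ : 𝓞 K →+* 𝓞 K) (N : ℕ) (hτ : ∀ x, τ x = 0 → x = 0) :
    AbcConj τ N ↔ SymK τ N := by
  have key : SymK τ N ↔ Low (arK K) (fun a : 𝓞 K => IsCoprime a (τ a) ∧ a ≠ 0 ∧ a ≠ τ a ∧
      (N : 𝓞 K) ∣ a - τ a) (fun a φ => max (max ‖(arK K).σ φ a‖ ‖(arK K).σ φ (τ a)‖)
      ‖(arK K).σ φ (a - τ a)‖) (fun a => a * τ a * (a - τ a)) 1 := by
    constructor
    · intro h ε hε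
      obtain ⟨κ, hκ0, hκ⟩ := h ε hε
      exact ⟨κ, hκ0, fun a ha => hκ a ha.1 ha.2.1 ha.2.2.1 ha.2.2.2⟩
    · intro h ε hε
      obtain ⟨κ, hκ0, hκ⟩ := h ε hε
      exact ⟨κ, hκ0, fun a h1 h2 h3 h4 => hκ a ⟨h1, h2, h3, h4⟩⟩
  rw [key, low_iff (arK K) (fun a ha => le_norm_prod (arK K) ha.2.1 fun i =>
    (le_max_left _ _).trans (le_max_left _ _))]
  have hht : ∀ a : 𝓞 K, height (a, -τ a, τ a - a) = ∏ φ : (arK K).ι,
      max (max ‖(arK K).σ φ a‖ ‖(arK K).σ φ (τ a)‖) ‖(arK K).σ φ (a - τ a)‖ := by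
    intro a
    unfold height
    apply Finset.prod_congr rfl
    intro φ _
    have e1 : φ ((-τ a : 𝓞 K) : K) = -φ ((τ a : 𝓞 K) : K) := by push_cast; rw [map_neg]
    have e2 : φ ((τ a - a : 𝓞 K) : K) = -φ ((a - τ a : 𝓞 K) : K) := by
      push_cast; rw [map_sub, map_sub]; ring
    simp only
    rw [e1, e2, norm_neg, norm_neg, ← max_assoc]
    rfl
  have hrad : ∀ a : 𝓞 K, rad (a, -τ a, τ a - a) = (arK K).rad (a * τ a * (a - τ a)) := by
    intro a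
    unfold rad
    simp only
    rw [show a * -τ a * (τ a - a) = a * τ a * (a - τ a) by ring]
    rfl
  have hneg : ∀ a : 𝓞 K, (N : 𝓞 K) ∣ τ a - a ↔ (N : 𝓞 K) ∣ a - τ a := fun a => dvd_sub_comm
  constructor
  · intro h ε hε
    obtain ⟨C, hC⟩ := h ε hε
    refine ⟨C, fun a ha => ?_⟩
    obtain ⟨h1, h2, h3, h4⟩ := ha
    have hsum : a + -τ a + (τ a - a) = 0 := by ring
    have hτ0 : τ a ≠ 0 := fun h => h2 (hτ a h)
    have h5 := hC (a, -τ a, τ a - a) ⟨hsum, mul_ne_zero (mul_ne_zero h2 (neg_ne_zero.2 hτ0))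
      (sub_ne_zero.2 fun h => h3 h.symm), (cop_iff hsum).2 h1.neg_right⟩ rfl ((hneg a).2 h4)
    rw [hht, hrad] at h5
    exact h5
  · intro h ε hε
    obtain ⟨C, hC⟩ := h ε hε
    refine ⟨C, ?_⟩
    rintro ⟨a, b, c⟩ ⟨hsum, hne, hcop⟩ hb hN
    simp only at hsum hne hcop hb hN
    subst hb
    have hc : c = τ a - a := by linear_combination hsum
    subst hc
    have ha : a ≠ 0 := by rintro rfl; simp at hne
    have h5 := hC a ⟨(IsCoprime.neg_right_iff a (τ a)).1 ((cop_iff hsum).1 hcop), ha, fun h => hne (by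
      rw [← h]; ring), (hneg a).1 hN⟩
    rw [hht, hrad]
    exact h5

/-- **Q1 for conjugate triples.** Let `K = ℚ(√5)`, let `τ` be the nontrivial automorphism of
`𝓞 K = ℤ[(1 + √5) / 2]`, and `N ≥ 1`. The restriction of the abc conjecture over `𝓞 K` to the triples
`(a, - τ a, τ a - a)` in lowest terms with `N ∣ τ a - a` is equivalent to the classical abc conjecture
over `ℤ`. -/
theorem result (K : Type) [Field K] [NumberField K] (hK : Module.finrank ℚ K = 2)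
    (h5 : ∃ s : K, s ^ 2 = 5) (τ : 𝓞 K ≃+* 𝓞 K) (hτ : τ ≠ RingEquiv.refl (𝓞 K)) (N : ℕ)
    (hN : 1 ≤ N) : AbcConj (τ : 𝓞 K →+* 𝓞 K) N ↔ AbcClassical := by
  rw [conj_iff (τ : 𝓞 K →+* 𝓞 K) N fun x hx => (map_eq_zero_iff τ τ.injective).1 hx]
  refine Pool.Agent.N564.GASymK.t Pool.Agent.N999.GA.Z.t Pool.Agent.N492.GA.Sym5.t
    Pool.Agent.N835.GA.SymFwd.t Pool.Agent.N2.GA.t K hK h5 (τ : 𝓞 K →+* 𝓞 K) ?_ N hN
  intro h
  apply hτ
  ext x
  have := congrArg (fun f : 𝓞 K →+* 𝓞 K => f x) h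
  simpa using this

end Pool.Agent.Results.MP_2a5a28_nt.ConjugateTriples
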