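import Mathlib
import Pool.Agent.N906.QP.AllL

/-!
# The abc conjecture over the integers of a number field, for instance of `ℚ(√5)`: joint law of the three radicals in
# every open set, up to the second order term

`K` is a number field of degree `d` (for instance `ℚ(√5)`, `d = 2`). A triple `a + b + c = 0` in lowest terms, up to units, is
given by `x = -a/c`, `1 - x = -b/c`; `cond(x)`, `cond(x - 1)`, `cond(1/x)` are the logarithms (divided by `d`) of the radicals of
`a`, `b`, `c`. Let `κ_i ≥ 0`, `0 < κ = ∑ κ_i < 1`, `c` real and let `Ω` be a polydisc in the product of the completions at the infinite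
places (for `ℚ(√5)`: the pairs of reals in two given intervals). The number `V(B)` of the `x ∈ K` in `Ω`, `x ≠ 0, 1`, of height at
most `B`, with `cond(x) ≤ (1 - κ_0) h(x) + c`, `cond(1/x) ≤ (1 - κ_1) h(x) + c`, `cond(x - 1) ≤ (1 - κ_2) h(x) + c` satisfies

  `log V(B) = d (2 - κ) log B + (∑_i √(8 κ_i d) + o(1)) √(log B / log log B)`.
-/

set_option autoImplicit false

namespace Pool.Agent.Results.MP_2a5a28_nt.LocalJointLaw

open NumberField IsDedekindDomain Filter Topology

section

variable {K : Type} [Field K] [NumberField K]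

/-- the absolute logarithmic height (`Height.logHeight₁` is relative to `K`) -/
noncomputable def height (x : K) : ℝ := Height.logHeight₁ x / (Module.finrank ℚ K : ℝ)

/-- the sum of `log N(v) / [K : ℚ]` over the primes `v` with `|x|_v < 1` (the radical of the numerator of `x`) -/
noncomputable def cond (x : K) : ℝ :=
  (∑ᶠ (v : HeightOneSpectrum (𝓞 K)) (_ : FinitePlace.mk v x < 1),
    Real.log (Ideal.absNorm v.asIdeal : ℝ)) / (Module.finrank ℚ K : ℝ)

/-- the `x ≠ 0, 1` of height at most `B` with `|x - z_w|_w < η` for all infinite places `w` and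
`cond(x) ≤ (1 - κ_0) h(x) + c`, `cond(1/x) ≤ (1 - κ_1) h(x) + c`, `cond(x - 1) ≤ (1 - κ_2) h(x) + c` -/
def Points (z : InfinitePlace K → ℂ) (η : ℝ) (κ : Fin 3 → ℝ) (c B : ℝ) : Set K :=
  {x | x ≠ 0 ∧ x ≠ 1 ∧ Real.exp (height x) ≤ B ∧
    (∀ w : InfinitePlace K, ‖w.embedding x - z w‖ < η) ∧ cond x ≤ (1 - κ 0) * height x + c ∧
    cond x⁻¹ ≤ (1 - κ 1) * height x + c ∧ cond (x - 1) ≤ (1 - κ 2) * height x + c}

end

/-- **Theorem.** Let `K` be a number field of degree `d`, `z_w` a complex number for each infinite place `w` (real for real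
`w`), `η > 0`, `κ_i ≥ 0` (`i = 0, 1, 2`) with `0 < κ = ∑ κ_i < 1` and `c` real. The number `V(B)` of the `x ∈ K`, `x ≠ 0, 1`, of height at
most `B`, with `|x - z_w|_w < η` for all `w` and `cond(x) ≤ (1 - κ_0) h(x) + c`, `cond(1/x) ≤ (1 - κ_1) h(x) + c`,
`cond(x - 1) ≤ (1 - κ_2) h(x) + c` is finite, and `(log V(B) - d (2 - κ) log B) / √(log B / log log B)` tends to
`∑_i √(8 κ_i d)`. -/
theorem result : ∀ (K : Type) [Field K] [NumberField K] (z : InfinitePlace K → ℂ) (η : ℝ)
    (κ : Fin 3 → ℝ) (c : ℝ), (∀ w : InfinitePlace K, w.IsReal → (z w).im = 0) → 0 < η →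
    (∀ i, 0 ≤ κ i) → 0 < ∑ i, κ i → ∑ i, κ i < 1 →
    (∀ B : ℝ, (Points z η κ c B).Finite) ∧
    Tendsto (fun B : ℝ => (Real.log ((Points z η κ c B).ncard : ℝ) -
        Module.finrank ℚ K * (2 - ∑ i, κ i) * Real.log B) / √(Real.log B / Real.log (Real.log B))) atTop
      (𝓝 (∑ i, √(8 * κ i * Module.finrank ℚ K))) := by
  intro K _ _ z η κ c hz hη h0 h1 h2
  exact Pool.Agent.N906.QP.Aff.xj_limit z η κ c hz hη h0 h1 h2

end Pool.Agent.Results.MP_2a5a28_nt.LocalJointLaw
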