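import Mathlib
import Pool.Agent.N251.GA.Inst

/-!
# The abc conjecture over `ℤ[(1 + √5) / 2]` is equivalent to its consequence for the radical of
`x ^ p - y ^ q`

Let `O = ℤ[(1 + √5) / 2]` and `M(x, y) = ∏ max (|φ x| ^ p, |φ y| ^ q)`, the product over the two
embeddings `φ`. The abc conjecture over `O` implies, for all coprime `x, y ∈ O` with `x ^ p ≠ y ^ q`,

  `rad (x ^ p - y ^ q) ≥ κ M(x, y) ^ (1 - 1/p - 1/q - ε)`,

an inequality in which only one of the three members of the triple contributes its radical. We prove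
the converse for `(p, q) = (k, 2)` for every `k ≥ 3`, for `(3, 3)` and `(4, 4)`, and for all
signatures obtained from these by three rules, for instance for

  `(k m, 2 m)` (`k ≥ 3`), `((k + 1) m, 2 k m)` (`k ≥ 2`), `((k + 2) m, 2 k m)` (`k ≥ 3`).

It is enough to know the inequality for `N ∣ x ^ p - y ^ q`, where `N` is fixed. In the same way the
abc conjecture over `O` follows, for every `n ≥ 2`, from the corresponding inequality
`rad (u v) ≥ κ (∏ max (|φ u|, |φ v|)) ^ (1 - 1/n - ε)` for the coprime `u`, `v` whose sum is an `n`-th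
power. The powers are exact: no units are allowed as factors.
-/

set_option autoImplicit false

namespace Pool.Agent.Results.MP_2a5a28_nt.RadicalsOfDifferences

open NumberField IsDedekindDomain
open Pool.Agent.N251.GA (arK abcK_iff AbcK radic' sig_list ABC)

variable {K : Type} [Field K] [NumberField K]

/-- the triples in lowest terms with `a + b + c = 0` and `abc ≠ 0` -/
structure Triple (t : 𝓞 K × 𝓞 K × 𝓞 K) : Prop where
  sum : t.1 + t.2.1 + t.2.2 = 0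
  ne : t.1 * t.2.1 * t.2.2 ≠ 0
  cop : Ideal.span {t.1, t.2.1, t.2.2} = (⊤ : Ideal (𝓞 K))

/-- the height `H(a, b, c)`: the product over the field embeddings `φ : K → ℂ` (two real ones when
`K = ℚ(√5)`) of `max (|φ a|, |φ b|, |φ c|)` -/
noncomputable def height (t : 𝓞 K × 𝓞 K × 𝓞 K) : ℝ :=
  ∏ φ : K →+* ℂ, max ‖φ t.1‖ (max ‖φ t.2.1‖ ‖φ t.2.2‖)

/-- the radical of `n`: the product of the norms of the prime ideals dividing `n` -/
noncomputable def rad (n : 𝓞 K) : ℝ :=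
  ∏ᶠ (P : HeightOneSpectrum (𝓞 K)) (_ : n ∈ P.asIdeal), (Ideal.absNorm P.asIdeal : ℝ)

/-- the abc conjecture over the integers of `K` (for the triples in lowest terms) -/
def Abc (K : Type) [Field K] [NumberField K] : Prop :=
  ∀ ε : ℝ, 0 < ε → ∃ C : ℝ, ∀ t : 𝓞 K × 𝓞 K × 𝓞 K, Triple t →
    height t ≤ C * rad (t.1 * t.2.1 * t.2.2) ^ (1 + ε)

/-- the inequality `rad (x ^ p - y ^ q) ≥ κ M ^ (1 - 1/p - 1/q - ε)`, where
`M = ∏ max (|φ x| ^ p, |φ y| ^ q)`, for all coprime `x`, `y` with `x ^ p ≠ y ^ q` and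
`N ∣ x ^ p - y ^ q` -/
def OneCusp (K : Type) [Field K] [NumberField K] (p q N : ℕ) : Prop :=
  ∀ ε : ℝ, 0 < ε → ∃ κ : ℝ, 0 < κ ∧ ∀ x y : 𝓞 K, IsCoprime x y → x ^ p ≠ y ^ q →
    (N : 𝓞 K) ∣ x ^ p - y ^ q →
      κ * (∏ φ : K →+* ℂ, max (‖φ x‖ ^ p) (‖φ y‖ ^ q)) ^ (1 - 1 / (p : ℝ) - 1 / (q : ℝ) - ε) ≤
        rad (x ^ p - y ^ q)

/-- the inequality `rad (u v) ≥ κ M ^ (1 - 1/n - ε)`, where `M = ∏ max (|φ u|, |φ v|)`, for all coprime
nonzero `u`, `v` whose sum is an `n`-th power, with `N ∣ u` -/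
def TwoCusps (K : Type) [Field K] [NumberField K] (n N : ℕ) : Prop :=
  ∀ ε : ℝ, 0 < ε → ∃ κ : ℝ, 0 < κ ∧ ∀ u v x : 𝓞 K, IsCoprime u v → u ≠ 0 → v ≠ 0 →
    u + v = x ^ n → (N : 𝓞 K) ∣ u →
      κ * (∏ φ : K →+* ℂ, max ‖φ u‖ ‖φ v‖) ^ (1 - 1 / (n : ℝ) - ε) ≤ rad (u * v)

/-- the signatures: the smallest set of pairs which contains `(k, 2)` for all `k ≥ 3`, `(3, 3)` and
`(4, 4)`, is closed under exchanging the two numbers and under common multiples, and contains with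
`(p, q)` the pair `(a + b, p a)` for all `a, b ≥ 1` with `p a = q b`, and the pair `(p, q (p + 1))` -/
abbrev Signature : ℕ → ℕ → Prop := Pool.Agent.N251.GA.Signature

theorem abc_iff : Abc K ↔ ABC (arK K) fun _ => True := by
  rw [← abcK_iff]
  constructor
  · intro h ε hε
    obtain ⟨C, hC⟩ := h ε hε
    exact ⟨C, fun t h1 h2 h3 _ => hC t ⟨h1, h2, h3⟩⟩
  · intro h ε hε
    obtain ⟨C, hC⟩ := h ε hε
    exact ⟨C, fun t ht => hC t ht.sum ht.ne ht.cop trivial⟩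

theorem one_iff (p q N : ℕ) : OneCusp K p q N ↔ Pool.Agent.N251.GA.OneCusp (arK K) p q N := by
  constructor
  · intro h ε hε
    obtain ⟨κ, hκ0, hκ⟩ := h ε hε
    refine ⟨κ, hκ0, ?_⟩
    rintro ⟨x, y⟩ ⟨h1, h2, h3⟩
    exact hκ x y h1 h2 h3
  · intro h ε hε
    obtain ⟨κ, hκ0, hκ⟩ := h ε hε
    exact ⟨κ, hκ0, fun x y h1 h2 h3 => hκ (x, y) ⟨h1, h2, h3⟩⟩

theorem two_iff (n N : ℕ) : TwoCusps K n N ↔ Pool.Agent.N251.GA.TwoCusps (arK K) n N := by
  constructor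
  · intro h ε hε
    obtain ⟨κ, hκ0, hκ⟩ := h ε hε
    refine ⟨κ, hκ0, ?_⟩
    rintro ⟨u, v, x⟩ ⟨h1, h2, h3, h4, h5⟩
    exact hκ u v x h1 h2 h3 h4 h5
  · intro h ε hε
    obtain ⟨κ, hκ0, hκ⟩ := h ε hε
    exact ⟨κ, hκ0, fun u v x h1 h2 h3 h4 h5 => hκ (u, v, x) ⟨h1, h2, h3, h4, h5⟩⟩

/-- **The abc conjecture over `O = ℤ[(1 + √5) / 2]` and the radical of `x ^ p - y ^ q`.** Let
`K = ℚ(√5)`, `O = 𝓞 K` and `N ≥ 1`.

* For every signature `(p, q)` of the set above the abc conjecture over `O` holds if and only if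
  for every `ε > 0` there is `κ > 0` with `rad (x ^ p - y ^ q) ≥ κ M ^ (1 - 1/p - 1/q - ε)`,
  `M = ∏ max (|φ x| ^ p, |φ y| ^ q)`, for all coprime `x, y ∈ O` with `x ^ p ≠ y ^ q` and
  `N ∣ x ^ p - y ^ q`.
* For every `n ≥ 2` it holds if and only if for every `ε > 0` there is `κ > 0` with
  `rad (u v) ≥ κ (∏ max (|φ u|, |φ v|)) ^ (1 - 1/n - ε)` for all coprime nonzero `u, v ∈ O` whose sum
  is an `n`-th power, with `N ∣ u`.
* The set of signatures contains `(k m, 2 m)` for `k ≥ 3`, `(3 m, 3 m)`, `(4 m, 4 m)`,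
  `((k + 1) m, 2 k m)` for `k ≥ 2` and `((k + 2) m, 2 k m)` for `k ≥ 3`, where `m ≥ 1`. -/
theorem result (K : Type) [Field K] [NumberField K] (_ : Module.finrank ℚ K = 2)
    (_ : ∃ s : K, s ^ 2 = 5) (N : ℕ) (hN : 1 ≤ N) :
    (∀ p q : ℕ, Signature p q → (Abc K ↔ OneCusp K p q N)) ∧
      (∀ n : ℕ, 2 ≤ n → (Abc K ↔ TwoCusps K n N)) ∧
      ∀ m : ℕ, 1 ≤ m → (∀ k : ℕ, 3 ≤ k → Signature (k * m) (2 * m)) ∧
        Signature (3 * m) (3 * m) ∧ Signature (4 * m) (4 * m) ∧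
        (∀ k : ℕ, 2 ≤ k → Signature ((k + 1) * m) (2 * k * m)) ∧
        ∀ k : ℕ, 3 ≤ k → Signature ((k + 2) * m) (2 * k * m) := by
  obtain ⟨h1, h2⟩ := radic' (arK K) N hN
  refine ⟨fun p q hpq => ?_, fun n hn => ?_, fun m hm => sig_list m hm⟩
  · rw [abc_iff, one_iff]; exact h1 p q hpq
  · rw [abc_iff, two_iff]; exact h2 n hn

end Pool.Agent.Results.MP_2a5a28_nt.RadicalsOfDifferences
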