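import Mathlib
import Pool.Agent.N251.GA.Inst

/-!
# The abc conjecture over `ℤ[(1 + √5) / 2]` and the generalized Fermat equations of spherical
signature

Let `p, q, r ≥ 1` with `1/p + 1/q + 1/r > 1`: the signatures `(1, q, r)`, `(2, 2, n)`, `(2, 3, 3)`,
`(2, 3, 4)`, `(2, 3, 5)` and their permutations. There are nonzero rational integers `A, B, C` with
`A B C ∣ 1728` such that the abc conjecture over `ℤ[(1 + √5) / 2]` holds if and only if it holds for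
the triples `a + b + c = 0` in lowest terms with `a = A x ^ p`, `b = B y ^ q`, `c = C z ^ r`; one may
moreover ask that a given `N ≥ 1` divides one of `a, b, c`.
-/

set_option autoImplicit false

namespace Pool.Agent.Results.MP_2a5a28_nt.SphericalSignatures

open NumberField IsDedekindDomain Pool.Agent.N251.GA

variable {K : Type} [Field K] [NumberField K]

/-- the triples in lowest terms with `a + b + c = 0` and `abc ≠ 0` -/
structure Triple (t : 𝓞 K × 𝓞 K × 𝓞 K) : Prop where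
  sum : t.1 + t.2.1 + t.2.2 = 0
  ne : t.1 * t.2.1 * t.2.2 ≠ 0
  cop : Ideal.span {t.1, t.2.1, t.2.2} = (⊤ : Ideal (𝓞 K))

/-- the height `H(a, b, c)`: the product over the field embeddings `φ : K → ℂ` (two real ones when
`K = ℚ(√5)`) of `max (|φ a|, |φ b|, |φ c|)` -/
noncomputable def height (t : 𝓞 K × 𝓞 K × 𝓞 K) : ℝ :=
  ∏ φ : K →+* ℂ, max ‖φ t.1‖ (max ‖φ t.2.1‖ ‖φ t.2.2‖)

/-- the radical: the product of the norms of the prime ideals dividing `abc` -/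
noncomputable def rad (t : 𝓞 K × 𝓞 K × 𝓞 K) : ℝ :=
  ∏ᶠ (P : HeightOneSpectrum (𝓞 K)) (_ : t.1 * t.2.1 * t.2.2 ∈ P.asIdeal),
    (Ideal.absNorm P.asIdeal : ℝ)

/-- the inequality of Q1, for every `ε > 0`, for the triples with the property `T` -/
def Abc (T : 𝓞 K × 𝓞 K × 𝓞 K → Prop) : Prop :=
  ∀ ε : ℝ, 0 < ε → ∃ C : ℝ, ∀ t : 𝓞 K × 𝓞 K × 𝓞 K, Triple t → T t →
    height t ≤ C * rad t ^ (1 + ε)

/-- the members of the triple are `A x ^ p`, `B y ^ q`, `C z ^ r` -/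
def Solution (p q r : ℕ) (A B C : ℤ) (t : 𝓞 K × 𝓞 K × 𝓞 K) : Prop :=
  ∃ x y z : 𝓞 K, t.1 = A * x ^ p ∧ t.2.1 = B * y ^ q ∧ t.2.2 = C * z ^ r

theorem abc_iff (T : 𝓞 K × 𝓞 K × 𝓞 K → Prop) : Abc T ↔ ABC (arK K) T := by
  rw [← abcK_iff]
  constructor
  · intro h ε hε
    obtain ⟨C, hC⟩ := h ε hε
    exact ⟨C, fun t h1 h2 h3 hT => hC t ⟨h1, h2, h3⟩ hT⟩
  · intro h ε hε
    obtain ⟨C, hC⟩ := h ε hε
    exact ⟨C, fun t ht hT => hC t ht.sum ht.ne ht.cop hT⟩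

/-- **The abc conjecture over `ℤ[(1 + √5) / 2]` is equivalent to its restriction to the solutions of
one generalized Fermat equation of each spherical signature.** Here `K = ℚ(√5)` and
`𝓞 K = ℤ[(1 + √5) / 2]` is its ring of integers. -/
theorem result (p q r : ℕ) (hp : 1 ≤ p) (hq : 1 ≤ q) (hr : 1 ≤ r)
    (h : p * q * r < q * r + p * r + p * q) :
    ∃ A B C : ℤ, A ≠ 0 ∧ B ≠ 0 ∧ C ≠ 0 ∧ A * B * C ∣ 1728 ∧
      ∀ (K : Type) [Field K] [NumberField K], Module.finrank ℚ K = 2 → (∃ s : K, s ^ 2 = 5) →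
        ∀ N : ℕ, 1 ≤ N →
          ((Abc fun t : 𝓞 K × 𝓞 K × 𝓞 K => Solution p q r A B C t ∧
              ((N : 𝓞 K) ∣ t.1 ∨ (N : 𝓞 K) ∣ t.2.1 ∨ (N : 𝓞 K) ∣ t.2.2)) ↔
            Abc fun _ : 𝓞 K × 𝓞 K × 𝓞 K => True) := by
  obtain ⟨A, B, C, hA, hB, hC, hd, hh⟩ := spherical' p q r hp hq hr h
  refine ⟨A, B, C, hA, hB, hC, hd, fun K _ _ _ _ N hN => ?_⟩
  rw [abc_iff, abc_iff]
  exact hh (𝓞 K) (arK K) N hN

end Pool.Agent.Results.MP_2a5a28_nt.SphericalSignatures
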